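import Mathlib

set_option autoImplicit false

/-!
# MP_235f01_an, Q2: no space with a 1-unconditional basis has the super alternative Daugavet property
-/

namespace Pool.Agent.Results.MP_235f01_an.NoUnconditionalSuperADP

open Filter Topology

/-- `W` is a relatively weakly open subset of the closed unit ball of `X`. -/
def RelWeaklyOpen {X : Type*} [NormedAddCommGroup X] [NormedSpace ℝ X] (W : Set X) : Prop :=
  ∃ U : Set (WeakSpace ℝ X), IsOpen U ∧ W = {y | ‖y‖ ≤ 1 ∧ toWeakSpace ℝ X y ∈ U}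

/-- The super alternative Daugavet property: for every `x` in the unit sphere and every nonempty
relatively weakly open `W ⊆ B_X`, `sup_{y ∈ W} max_{θ = ±1} ‖x + θ y‖ = 2` (the supremum is always
at most `2`, so this says that every `2 - ε` is exceeded). -/
def SuperADP (X : Type*) [NormedAddCommGroup X] [NormedSpace ℝ X] : Prop :=
  ∀ x : X, ‖x‖ = 1 → ∀ W : Set X, RelWeaklyOpen W → W.Nonempty →
    ∀ ε : ℝ, 0 < ε → ∃ y ∈ W, 2 - ε < ‖x + y‖ ∨ 2 - ε < ‖x - y‖

/-- `e` is a Schauder basis of `X`: every vector has a unique norm-convergent expansion. -/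
def IsSchauderBasis {X : Type*} [NormedAddCommGroup X] [NormedSpace ℝ X] (e : ℕ → X) : Prop :=
  ∀ x : X, ∃! a : ℕ → ℝ, Tendsto (fun N => ∑ n ∈ Finset.range N, a n • e n) atTop (𝓝 x)

/-- `e` is `1`-unconditional: changing signs of coefficients does not change the norm of a finite
linear combination. -/
def OneUnconditional {X : Type*} [NormedAddCommGroup X] [NormedSpace ℝ X] (e : ℕ → X) : Prop :=
  ∀ (F : Finset ℕ) (a σ : ℕ → ℝ), (∀ n, σ n = 1 ∨ σ n = -1) →
    ‖∑ n ∈ F, (σ n * a n) • e n‖ = ‖∑ n ∈ F, a n • e n‖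

section

variable {X : Type*} [NormedAddCommGroup X] [NormedSpace ℝ X] {e : ℕ → X}

/-- Removing coordinates does not increase the norm. -/
lemma norm_sub_le_of_subset (hu : OneUnconditional e) (F P : Finset ℕ) (hP : P ⊆ F) (a : ℕ → ℝ) :
    ‖∑ n ∈ P, a n • e n‖ ≤ ‖∑ n ∈ F, a n • e n‖ := by
  classical
  let σ : ℕ → ℝ := fun n => if n ∈ P then 1 else -1
  have hσ : ∀ n, σ n = 1 ∨ σ n = -1 := by
    intro n
    by_cases h : n ∈ P
    · left; simp [σ, h]
    · right; simp [σ, h]
  have h1 := hu F a σ hσ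
  have h2 : ∑ n ∈ F, (σ n * a n) • e n + ∑ n ∈ F, a n • e n = (2 : ℝ) • ∑ n ∈ P, a n • e n := by
    rw [← Finset.sum_add_distrib, Finset.smul_sum, ← Finset.sum_subset hP]
    · apply Finset.sum_congr rfl
      intro n hn
      simp only [σ, hn, if_true, one_mul]
      rw [two_smul]
    · intro n _ hn
      simp only [σ, hn, if_false]
      rw [neg_one_mul, neg_smul, neg_add_cancel]
  have h3 : ‖(2 : ℝ) • ∑ n ∈ P, a n • e n‖ ≤ 2 * ‖∑ n ∈ F, a n • e n‖ := by
    rw [← h2]
    refine (norm_add_le _ _).trans ?_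
    rw [h1]; linarith
  rw [norm_smul, Real.norm_of_nonneg (by norm_num)] at h3
  linarith

variable (hb : IsSchauderBasis e)

/-- Coefficients. -/
noncomputable def coef (x : X) : ℕ → ℝ := (hb x).choose

lemma coef_tendsto (x : X) :
    Tendsto (fun N => ∑ n ∈ Finset.range N, coef hb x n • e n) atTop (𝓝 x) :=
  (hb x).choose_spec.1

lemma coef_unique (x : X) (a : ℕ → ℝ)
    (ha : Tendsto (fun N => ∑ n ∈ Finset.range N, a n • e n) atTop (𝓝 x)) :
    a = coef hb x := (hb x).choose_spec.2 a ha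

lemma coef_add (x y : X) (n : ℕ) : coef hb (x + y) n = coef hb x n + coef hb y n := by
  have h := coef_unique hb (x + y) (fun n => coef hb x n + coef hb y n) (by
    have := (coef_tendsto hb x).add (coef_tendsto hb y)
    refine this.congr fun N => ?_
    rw [← Finset.sum_add_distrib]
    exact Finset.sum_congr rfl fun n _ => (add_smul _ _ _).symm)
  exact (congrFun h n).symm

lemma coef_smul (c : ℝ) (x : X) (n : ℕ) : coef hb (c • x) n = c * coef hb x n := by
  have h := coef_unique hb (c • x) (fun n => c * coef hb x n) (by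
    have := (coef_tendsto hb x).const_smul c
    refine this.congr fun N => ?_
    rw [Finset.smul_sum]
    exact Finset.sum_congr rfl fun n _ => by rw [smul_smul])
  exact (congrFun h n).symm

lemma coef_finset (F : Finset ℕ) (a : ℕ → ℝ) (n : ℕ) :
    coef hb (∑ k ∈ F, a k • e k) n = if n ∈ F then a n else 0 := by
  classical
  have h := coef_unique hb (∑ k ∈ F, a k • e k) (fun n => if n ∈ F then a n else 0) (by
    obtain ⟨M, hM⟩ := F.exists_nat_subset_range
    refine tendsto_const_nhds.congr' ?_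
    filter_upwards [eventually_ge_atTop M] with N hN
    have hsub : F ⊆ Finset.range N := hM.trans (Finset.range_mono hN)
    rw [← Finset.sum_subset hsub]
    · exact Finset.sum_congr rfl fun n hn => by simp [hn]
    · intro n _ hn
      simp [hn])
  exact (congrFun h n).symm

include hb in
lemma e_ne_zero (n : ℕ) : e n ≠ 0 := by
  intro h
  have h1 := coef_finset hb {n} (fun _ => 1) n
  have h2 : ∑ k ∈ ({n} : Finset ℕ), (fun _ => (1 : ℝ)) k • e k = 0 := by simp [h]
  rw [h2] at h1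
  have h3 : coef hb (0 : X) n = 0 := by
    have := coef_smul hb 0 (0 : X) n
    simpa using this
  rw [h3] at h1
  simp at h1

lemma coef_bound (hu : OneUnconditional e) (x : X) (n : ℕ) : |coef hb x n| * ‖e n‖ ≤ ‖x‖ := by
  have h1 : Tendsto (fun N => ‖∑ k ∈ Finset.range N, coef hb x k • e k‖) atTop (𝓝 ‖x‖) :=
    (coef_tendsto hb x).norm
  refine ge_of_tendsto h1 ?_
  filter_upwards [eventually_ge_atTop (n + 1)] with N hN
  have h2 := norm_sub_le_of_subset hu (Finset.range N) {n} (by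
    intro k hk
    rw [Finset.mem_singleton] at hk
    subst hk
    exact Finset.mem_range.2 (by omega)) (coef hb x)
  rwa [Finset.sum_singleton, norm_smul, Real.norm_eq_abs] at h2

/-- Coordinate functionals are continuous. -/
noncomputable def coefL (hu : OneUnconditional e) (n : ℕ) : X →L[ℝ] ℝ :=
  LinearMap.mkContinuous
    { toFun := fun x => coef hb x n
      map_add' := fun x y => coef_add hb x y n
      map_smul' := fun c x => coef_smul hb c x n } (‖e n‖⁻¹) (by
    intro x
    have h1 := coef_bound hb hu x n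
    have h2 : 0 < ‖e n‖ := norm_pos_iff.2 (e_ne_zero hb n)
    simp only [LinearMap.coe_mk, AddHom.coe_mk, Real.norm_eq_abs]
    rw [inv_mul_eq_div, le_div_iff₀ h2]
    exact h1)

lemma coefL_apply (hu : OneUnconditional e) (n : ℕ) (x : X) : coefL hb hu n x = coef hb x n := rfl

/-- Flipping the signs of finitely many coordinates preserves the norm. -/
lemma norm_flip (hu : OneUnconditional e) (P : Finset ℕ) (z : X) :
    ‖z - (2 : ℝ) • ∑ n ∈ P, coef hb z n • e n‖ = ‖z‖ := by
  classical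
  let σ : ℕ → ℝ := fun n => if n ∈ P then -1 else 1
  have hσ : ∀ n, σ n = 1 ∨ σ n = -1 := by
    intro n
    by_cases h : n ∈ P
    · right; simp [σ, h]
    · left; simp [σ, h]
  have h1 : Tendsto (fun N => ‖∑ k ∈ Finset.range N, coef hb z k • e k‖) atTop (𝓝 ‖z‖) :=
    (coef_tendsto hb z).norm
  have h2 : Tendsto (fun N => ‖∑ k ∈ Finset.range N, coef hb z k • e k
      - (2 : ℝ) • ∑ n ∈ P, coef hb z n • e n‖) atTop
      (𝓝 ‖z - (2 : ℝ) • ∑ n ∈ P, coef hb z n • e n‖) :=
    ((coef_tendsto hb z).sub_const _).norm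
  refine tendsto_nhds_unique (h2.congr' ?_) h1
  obtain ⟨M, hM⟩ := P.exists_nat_subset_range
  filter_upwards [eventually_ge_atTop M] with N hN
  rw [← hu (Finset.range N) (coef hb z) σ hσ]
  congr 1
  have hsub : P ⊆ Finset.range N := hM.trans (Finset.range_mono hN)
  rw [Finset.smul_sum, Finset.sum_subset_zero_on_sdiff (s₁ := P) (s₂ := Finset.range N)
    (f := fun n => (2 : ℝ) • coef hb z n • e n)
    (g := fun n => if n ∈ P then (2 : ℝ) • coef hb z n • e n else 0) hsub
    (by intro n hn; simp [(Finset.mem_sdiff.1 hn).2]) (by intro n hn; simp [hn]),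
    ← Finset.sum_sub_distrib]
  apply Finset.sum_congr rfl
  intro n _
  by_cases h : n ∈ P
  · simp only [h, if_true, σ]
    rw [neg_one_mul, neg_smul, two_smul]; abel
  · simp only [h, if_false, σ]
    rw [one_mul, sub_zero]

lemma norm_flip' (hu : OneUnconditional e) (P : Finset ℕ) (z w : X)
    (hw : w = z - (2 : ℝ) • ∑ n ∈ P, coef hb z n • e n) : ‖w‖ = ‖z‖ := by
  rw [hw]; exact norm_flip hb hu P z

include hb in
/-- Key lemma: under the super ADP, for a partition of the support of a norm one vector, one of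
the two pieces has norm one. -/
lemma key (hu : OneUnconditional e) (hs : SuperADP X) (F P : Finset ℕ) (hP : P ⊆ F) (b : ℕ → ℝ)
    (hx : ‖∑ n ∈ F, b n • e n‖ = 1) :
    1 ≤ ‖∑ n ∈ P, b n • e n‖ ∨ 1 ≤ ‖∑ n ∈ F \ P, b n • e n‖ := by
  classical
  by_contra hcon
  push Not at hcon
  obtain ⟨hc1, hc2⟩ := hcon
  set x : X := ∑ n ∈ F, b n • e n with hxdef
  set xP : X := ∑ n ∈ P, b n • e n with hxP
  set xQ : X := ∑ n ∈ F \ P, b n • e n with hxQ
  have hsum : x = xP + xQ := by
    rw [hxdef, hxP, hxQ, add_comm]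
    exact (Finset.sum_sdiff hP).symm
  -- constants
  let C : ℝ := ∑ n ∈ F, ‖e n‖
  have hC : 0 ≤ C := Finset.sum_nonneg fun _ _ => norm_nonneg _
  obtain ⟨δ, hδ, hδC1, hδC2⟩ : ∃ δ : ℝ, 0 < δ ∧ δ + 2 * (δ * C) < 1 - ‖xP‖ ∧
      δ + 2 * (δ * C) < 1 - ‖xQ‖ := by
    let m : ℝ := min (1 - ‖xP‖) (1 - ‖xQ‖)
    have hm : 0 < m := lt_min (by linarith) (by linarith)
    refine ⟨m / (2 * (1 + 2 * C)), by positivity, ?_, ?_⟩
    · have h1 : m / (2 * (1 + 2 * C)) + 2 * (m / (2 * (1 + 2 * C)) * C) = m / 2 := by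
        field_simp
      rw [h1]
      have : m ≤ 1 - ‖xP‖ := min_le_left _ _
      linarith
    · have h1 : m / (2 * (1 + 2 * C)) + 2 * (m / (2 * (1 + 2 * C)) * C) = m / 2 := by
        field_simp
      rw [h1]
      have : m ≤ 1 - ‖xQ‖ := min_le_right _ _
      linarith
  -- the centre
  let c : ℕ → ℝ := fun n => if n ∈ P then -(1 / 2) * b n else 1 / 2 * b n
  let y₀ : X := ∑ n ∈ F, c n • e n
  have hy₀ : y₀ = (1 / 2 : ℝ) • xQ - (1 / 2 : ℝ) • xP := by
    have h1 : y₀ = ∑ n ∈ F \ P, c n • e n + ∑ n ∈ P, c n • e n := (Finset.sum_sdiff hP).symm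
    rw [h1, sub_eq_add_neg]
    congr 1
    · rw [hxQ, Finset.smul_sum]
      apply Finset.sum_congr rfl
      intro n hn
      have : n ∉ P := (Finset.mem_sdiff.1 hn).2
      simp only [c, this, if_false]
      rw [smul_smul]
    · rw [hxP, Finset.smul_sum, ← Finset.sum_neg_distrib]
      apply Finset.sum_congr rfl
      intro n hn
      simp only [c, hn, if_true]
      rw [smul_smul, ← neg_smul]; congr 1; ring
  -- the weakly open set
  let U : Set (WeakSpace ℝ X) := ⋂ n ∈ F, {y | |(coefL hb hu n) ((toWeakSpace ℝ X).symm y) - c n| < δ}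
  have hU : IsOpen U := by
    apply isOpen_biInter_finset
    intro n _
    have hcont : Continuous fun y : WeakSpace ℝ X => (coefL hb hu n) ((toWeakSpace ℝ X).symm y) :=
      WeakBilin.eval_continuous (topDualPairing ℝ X).flip (coefL hb hu n)
    exact isOpen_lt (hcont.sub continuous_const).abs continuous_const
  let W : Set X := {y | ‖y‖ ≤ 1 ∧ toWeakSpace ℝ X y ∈ U}
  have hWmem : ∀ y, y ∈ W ↔ ‖y‖ ≤ 1 ∧ ∀ n ∈ F, |coef hb y n - c n| < δ := by
    intro y
    simp only [W, U, Set.mem_ofPred_eq, Set.mem_iInter, LinearEquiv.symm_apply_apply, coefL_apply]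
  have hy₀W : y₀ ∈ W := by
    rw [hWmem]
    constructor
    · have h1 : ‖xP‖ < 1 := hc1
      have h2 : ‖xQ‖ < 1 := hc2
      rw [hy₀]
      refine (norm_sub_le _ _).trans ?_
      rw [norm_smul, norm_smul, Real.norm_of_nonneg (by norm_num)]
      linarith
    · intro n hn
      rw [coef_finset, if_pos hn, sub_self, abs_zero]
      exact hδ
  obtain ⟨y, hyW, hy⟩ := hs x hx W ⟨U, hU, rfl⟩ ⟨y₀, hy₀W⟩ δ hδ
  obtain ⟨hy1, hyc⟩ := (hWmem y).1 hyW
  -- the corrected vector
  let r : X := ∑ n ∈ F, (coef hb y n - c n) • e n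
  have hr : ‖r‖ ≤ δ * C := by
    refine (norm_sum_le _ _).trans ?_
    rw [Finset.mul_sum]
    apply Finset.sum_le_sum
    intro n hn
    rw [norm_smul, Real.norm_eq_abs]
    exact mul_le_mul_of_nonneg_right (hyc n hn).le (norm_nonneg _)
  let y' : X := y - r
  have hy'1 : ‖y'‖ ≤ 1 + δ * C := (norm_sub_le _ _).trans (add_le_add hy1 hr)
  have hy'c : ∀ n ∈ F, coef hb y' n = c n := by
    intro n hn
    have h1 : y' = y + (-1 : ℝ) • r := by simp only [y']; rw [neg_one_smul, sub_eq_add_neg]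
    rw [h1, coef_add, coef_smul, coef_finset, if_pos hn]
    ring
  -- flips
  have hflipP : ‖y' + xP‖ = ‖y'‖ := by
    apply norm_flip' hb hu P
    have : ∑ n ∈ P, coef hb y' n • e n = (-(1 / 2) : ℝ) • xP := by
      rw [hxP, Finset.smul_sum]
      apply Finset.sum_congr rfl
      intro n hn
      rw [hy'c n (hP hn)]
      simp only [c, hn, if_true]
      rw [smul_smul]
    rw [this, smul_smul]
    norm_num
  have hflipQ : ‖y' - xQ‖ = ‖y'‖ := by
    apply norm_flip' hb hu (F \ P)
    have : ∑ n ∈ F \ P, coef hb y' n • e n = ((1 / 2) : ℝ) • xQ := by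
      rw [hxQ, Finset.smul_sum]
      apply Finset.sum_congr rfl
      intro n hn
      have hn' := Finset.mem_sdiff.1 hn
      rw [hy'c n hn'.1]
      simp only [c, hn'.2, if_false]
      rw [smul_smul]
    rw [this, smul_smul]
    norm_num
  rcases hy with hy | hy
  · -- x + y = xQ + (y' + xP) + r
    have h1 : x + y = xQ + (y' + xP) + r := by
      rw [hsum]; simp only [y']; abel
    rw [h1] at hy
    have h2 : ‖xQ + (y' + xP) + r‖ ≤ ‖xQ‖ + ‖y'‖ + ‖r‖ := by
      refine (norm_add_le _ _).trans (add_le_add ((norm_add_le _ _).trans ?_) le_rfl)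
      rw [hflipP]
    linarith
  · have h1 : x - y = xP - (y' - xQ) - r := by
      rw [hsum]; simp only [y']; abel
    rw [h1] at hy
    have h2 : ‖xP - (y' - xQ) - r‖ ≤ ‖xP‖ + ‖y'‖ + ‖r‖ := by
      refine (norm_sub_le _ _).trans (add_le_add ((norm_sub_le _ _).trans ?_) le_rfl)
      rw [hflipQ]
    linarith

include hb in
/-- Consequently the norm is the weighted supremum norm. -/
lemma exists_coord (hu : OneUnconditional e) (hs : SuperADP X) (F : Finset ℕ) :
    ∀ b : ℕ → ℝ, ‖∑ n ∈ F, b n • e n‖ = 1 → ∃ n ∈ F, 1 ≤ |b n| * ‖e n‖ := by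
  classical
  induction F using Finset.induction_on with
  | empty =>
    intro b h
    simp at h
  | insert m F hm ih =>
    intro b h
    rcases key hb hu hs (insert m F) {m} (by simp) b h with h1 | h1
    · refine ⟨m, Finset.mem_insert_self _ _, ?_⟩
      rwa [Finset.sum_singleton, norm_smul, Real.norm_eq_abs] at h1
    · have h2 : insert m F \ {m} = F := by
        ext k
        simp only [Finset.mem_sdiff, Finset.mem_insert, Finset.mem_singleton]
        constructor
        · rintro ⟨h3 | h3, h4⟩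
          · exact absurd h3 h4
          · exact h3
        · intro h3
          exact ⟨Or.inr h3, fun h4 => hm (h4 ▸ h3)⟩
      rw [h2] at h1
      have h3 : ‖∑ n ∈ F, b n • e n‖ ≤ 1 := by
        rw [← h]
        exact norm_sub_le_of_subset hu _ _ (Finset.subset_insert _ _) b
      obtain ⟨n, hn, hn2⟩ := ih b (le_antisymm h3 h1)
      exact ⟨n, Finset.mem_insert_of_mem hn, hn2⟩

include hb in
lemma norm_finset_le (hu : OneUnconditional e) (hs : SuperADP X) (F : Finset ℕ) (b : ℕ → ℝ)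
    (R : ℝ) (hR : 0 ≤ R) (h : ∀ n ∈ F, |b n| * ‖e n‖ ≤ R) : ‖∑ n ∈ F, b n • e n‖ ≤ R := by
  by_contra hcon
  push Not at hcon
  set r : ℝ := ‖∑ n ∈ F, b n • e n‖ with hr
  have hr0 : 0 < r := lt_of_le_of_lt hR hcon
  have h1 : ‖∑ n ∈ F, (r⁻¹ * b n) • e n‖ = 1 := by
    have : ∑ n ∈ F, (r⁻¹ * b n) • e n = r⁻¹ • ∑ n ∈ F, b n • e n := by
      rw [Finset.smul_sum]
      exact Finset.sum_congr rfl fun n _ => by rw [smul_smul]
    rw [this, norm_smul, norm_inv, Real.norm_of_nonneg hr0.le, ← hr]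
    exact inv_mul_cancel₀ hr0.ne'
  obtain ⟨n, hn, hn2⟩ := exists_coord hb hu hs F (fun n => r⁻¹ * b n) h1
  rw [abs_mul, abs_of_pos (inv_pos.2 hr0), mul_assoc] at hn2
  have h3 : r ≤ |b n| * ‖e n‖ := by
    have := mul_le_mul_of_nonneg_left hn2 hr0.le
    rwa [mul_one, ← mul_assoc, mul_inv_cancel₀ hr0.ne', one_mul] at this
  linarith [h n hn]

end

/-- **No Banach space with a 1-unconditional basis has the super alternative Daugavet property.**
This answers Q2 in the negative. -/
theorem result {X : Type*} [NormedAddCommGroup X] [NormedSpace ℝ X] [CompleteSpace X]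
    (e : ℕ → X) (hb : IsSchauderBasis e) (hu : OneUnconditional e) : ¬ SuperADP X := by
  classical
  intro hs
  have he0 : 0 < ‖e 0‖ := norm_pos_iff.2 (e_ne_zero hb 0)
  let x : X := ‖e 0‖⁻¹ • e 0
  have hx : ‖x‖ = 1 := by
    simp only [x]
    rw [norm_smul, norm_inv, norm_norm]
    exact inv_mul_cancel₀ he0.ne'
  have hxc : ∀ n, coef hb x n = if n = 0 then ‖e 0‖⁻¹ else 0 := by
    intro n
    have h1 : x = ∑ k ∈ ({0} : Finset ℕ), (fun _ => ‖e 0‖⁻¹) k • e k := by simp [x]
    rw [h1, coef_finset]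
    simp
  let U : Set (WeakSpace ℝ X) :=
    {y | |(coefL hb hu 0) ((toWeakSpace ℝ X).symm y)| < 1 / 2 * ‖e 0‖⁻¹}
  have hU : IsOpen U := by
    have hcont : Continuous fun y : WeakSpace ℝ X => (coefL hb hu 0) ((toWeakSpace ℝ X).symm y) :=
      WeakBilin.eval_continuous (topDualPairing ℝ X).flip (coefL hb hu 0)
    exact isOpen_lt hcont.abs continuous_const
  obtain ⟨y, ⟨hy1, hyU⟩, hy⟩ := hs x hx {y | ‖y‖ ≤ 1 ∧ toWeakSpace ℝ X y ∈ U} ⟨U, hU, rfl⟩
    ⟨0, by simp only [Set.mem_ofPred_eq, U, map_zero, norm_zero, abs_zero]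
           exact ⟨zero_le_one, by positivity⟩⟩ (1 / 4) (by norm_num)
  have hy0 : |coef hb y 0| < 1 / 2 * ‖e 0‖⁻¹ := by
    simpa only [U, Set.mem_ofPred_eq, LinearEquiv.symm_apply_apply, coefL_apply] using hyU
  have hbound : ∀ z : X, (∀ n, |coef hb z n| * ‖e n‖ ≤ 3 / 2) → ‖z‖ ≤ 3 / 2 := by
    intro z hz
    refine le_of_tendsto (coef_tendsto hb z).norm (Eventually.of_forall fun N => ?_)
    exact norm_finset_le hb hu hs _ _ _ (by norm_num) fun n _ => hz n
  have hcoord : ∀ θ : ℝ, |θ| = 1 → ∀ n, |coef hb (x + θ • y) n| * ‖e n‖ ≤ 3 / 2 := by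
    intro θ hθ n
    rw [coef_add, coef_smul hb θ y, hxc]
    by_cases hn : n = 0
    · subst hn
      rw [if_pos rfl]
      have h1 : |‖e 0‖⁻¹ + θ * coef hb y 0| ≤ ‖e 0‖⁻¹ + 1 / 2 * ‖e 0‖⁻¹ := by
        refine (abs_add_le _ _).trans ?_
        rw [abs_mul, hθ, one_mul, abs_of_pos (inv_pos.2 he0)]
        linarith
      calc _ ≤ (‖e 0‖⁻¹ + 1 / 2 * ‖e 0‖⁻¹) * ‖e 0‖ := mul_le_mul_of_nonneg_right h1 he0.le
        _ = 3 / 2 := by field_simp; norm_num
    · rw [if_neg hn, zero_add, abs_mul, hθ, one_mul]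
      have := coef_bound hb hu y n
      linarith
  rcases hy with hy | hy
  · have h1 := hbound (x + (1 : ℝ) • y) (hcoord 1 (by simp))
    rw [one_smul] at h1
    linarith
  · have h1 := hbound (x + (-1 : ℝ) • y) (hcoord (-1) (by simp))
    rw [neg_one_smul, ← sub_eq_add_neg] at h1
    linarith

end Pool.Agent.Results.MP_235f01_an.NoUnconditionalSuperADP
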